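import Pool.Agent.H656R2.AK.AKIn
import Pool.Agent.H656R2.AK.TQPoly
import Pool.Agent.Y386.AK.MatPoly

/-!
# Arc-Kayles on bipartite graphs is complete for PSPACE
-/

namespace Pool.Agent.Y386.AK

open Pool.Agent.NPC Pool.Agent.H623R2.PS
open Pool.Agent.H656R2.AK (FirstWins adjMatrix ArcKayles valid ent poly_ent akMoves poly_akMoves
  mem_akMoves mvL poly_valid sz_filter_le' arcKayles_valid inPSPACE_of_game QF QFwf evc qbf_hard
  arcKayles_iff)

/-- The problem ARC-KAYLES for bipartite graphs, which are given by the list of the sides of the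
vertices and by the adjacency matrix: does the first player win? -/
def BipArcKayles (p : List Bool × List (List Bool)) : Prop :=
  ∃ (n : ℕ) (G : SimpleGraph (Fin n)) (c : Fin n → Bool), (∀ i j, G.Adj i j → c i ≠ c j) ∧
    List.ofFn c = p.1 ∧ adjMatrix G = p.2 ∧ FirstWins G Set.univ

/-- Every problem which is Arc-Kayles on a matrix computable in polynomial time is in `PSPACE`. -/
theorem inPSPACE_of_mat {L : Set (List Bool)} {mat : List Bool → List (List Bool)}
    (hdec : NPC.Poly mat) (hL : ∀ x, x ∈ L ↔ ArcKayles (mat x)) : InPSPACE L := by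
  have hlen : UPoly (fun x : List Bool => (mat x).length) := UPoly.length hdec
  have hinit : NPC.Poly (fun x => (mat x, List.range (mat x).length)) :=
    NPC.Poly.pair hdec hlen.range
  refine inPSPACE_of_game hinit (good := fun b => valid b.1)
    (poly_valid.comp (NPC.Poly.fst NPC.Poly.id)) poly_akMoves ?_
    (w := fun x => (mat x).length * (mat x).length + ((mat x).length + 1)) ?_
    (fun x b => b.2.length ≤ (mat x).length)
    (fun b => b.2.length) ?_ ?_ ?_ ?_
  · intro b b' hb'
    rw [mem_akMoves] at hb'
    obtain ⟨u, hu, v, hv, he, rfl⟩ := hb'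
    obtain ⟨M, S⟩ := b
    simp only [sz_pair]
    have := sz_filter_le' (fun x => !decide (x = u) && !decide (x = v)) S
    omega
  · exact (hlen.mul hlen).add (hlen.add (UPoly.const 1))
  · intro x
    simp
  · rintro x b hb b' hb'
    rw [mem_akMoves] at hb'
    obtain ⟨u, hu, v, hv, he, rfl⟩ := hb'
    simp only
    have h1 : (b.2.filter fun x => !decide (x = u) && !decide (x = v)).length < b.2.length := by
      rw [List.length_filter_lt_length_iff_exists]
      exact ⟨u, hu, by simp⟩
    exact ⟨by omega, h1⟩
  · intro x b hb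
    have h1 : (akMoves b).length ≤ b.2.length * b.2.length := by
      unfold akMoves
      rw [List.length_map]
      refine (List.length_filter_le _ _).trans ?_
      rw [List.length_product]
    have h2 : b.2.length * b.2.length ≤ (mat x).length * (mat x).length := Nat.mul_le_mul hb hb
    exact ⟨by omega, by omega⟩
  · intro x
    rw [hL x]
    exact arcKayles_valid (mat x)

/-- the test of the sides -/
def chk (p : List Bool × List (List Bool)) : Bool :=
  decide (p.1.length = p.2.length) && (List.range p.2.length).all fun i =>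
    (List.range p.2.length).all fun j =>
      !ent p.2 i j || !decide (p.1.getD i false = p.1.getD j false)

theorem poly_chk : NPC.Poly chk := by
  have h1 : NPC.Poly (fun p : List Bool × List (List Bool) => List.range p.2.length) :=
    (UPoly.length (NPC.Poly.snd NPC.Poly.id)).range
  have h2 : NPC.Poly (fun p : List Bool × List (List Bool) => decide (p.1.length = p.2.length)) := by
    fun_prop
  have h3 : NPC.Poly (fun q : (List Bool × List (List Bool)) × ℕ =>
      (List.range q.1.2.length).all fun j =>
        !ent q.1.2 q.2 j || !decide (q.1.1.getD q.2 false = q.1.1.getD j false)) :=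
    NPC.Poly.all (l := fun q : (List Bool × List (List Bool)) × ℕ => List.range q.1.2.length)
      (p := fun q j => !ent q.1.2 q.2 j || !decide (q.1.1.getD q.2 false = q.1.1.getD j false))
      (h1.comp (NPC.Poly.fst NPC.Poly.id)) (by fun_prop)
  have h4 : NPC.Poly (fun p : List Bool × List (List Bool) => (List.range p.2.length).all fun i =>
      (List.range p.2.length).all fun j =>
        !ent p.2 i j || !decide (p.1.getD i false = p.1.getD j false)) :=
    NPC.Poly.all (l := fun p : List Bool × List (List Bool) => List.range p.2.length)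
      (p := fun p i => (List.range p.2.length).all fun j =>
        !ent p.2 i j || !decide (p.1.getD i false = p.1.getD j false)) h1 h3
  exact h2.and h4

theorem ent_adjMatrix {n : ℕ} (G : SimpleGraph (Fin n)) (i j : Fin n) :
    ent (adjMatrix G) i j = true ↔ G.Adj i j := by
  classical
  simp [ent, adjMatrix, List.getD_eq_getElem?_getD]

theorem chk_iff {n : ℕ} (G : SimpleGraph (Fin n)) (l : List Bool) :
    chk (l, adjMatrix G) = true ↔
      ∃ c : Fin n → Bool, (∀ i j, G.Adj i j → c i ≠ c j) ∧ List.ofFn c = l := by
  have hlen : (adjMatrix G).length = n := by simp [adjMatrix]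
  unfold chk
  simp only [Bool.and_eq_true, decide_eq_true_eq, List.all_eq_true, List.mem_range, hlen,
    Bool.or_eq_true, Bool.not_eq_true', decide_eq_false_iff_not]
  constructor
  · rintro ⟨h1, h2⟩
    refine ⟨fun i => l.getD i false, ?_, ?_⟩
    · intro i j hij
      rcases h2 i i.isLt j j.isLt with h3 | h3
      · rw [← ent_adjMatrix, h3] at hij
        exact absurd hij (by simp)
      · exact h3
    · apply List.ext_getElem
      · simp [h1]
      · intro i h3 h4
        simp [List.getD_eq_getElem?_getD, List.getElem?_eq_getElem h4]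
  · rintro ⟨c, hc, rfl⟩
    refine ⟨by simp, fun i hi j hj => ?_⟩
    by_cases hij : G.Adj ⟨i, hi⟩ ⟨j, hj⟩
    · right
      have := hc _ _ hij
      simpa [List.getD_eq_getElem?_getD, hi, hj] using this
    · left
      rw [← ent_adjMatrix] at hij
      simpa using hij

/-- the matrix, if the list of the sides is correct -/
def fixM (p : List Bool × List (List Bool)) : List (List Bool) := if chk p = true then p.2 else [[true]]

theorem not_arcKayles_one : ¬ ArcKayles [[true]] := by
  rw [arcKayles_valid]
  exact fun h => absurd h.1 (by decide)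

theorem bip_iff (p : List Bool × List (List Bool)) : BipArcKayles p ↔ ArcKayles (fixM p) := by
  unfold fixM
  constructor
  · rintro ⟨n, G, c, hc, h1, h2, hW⟩
    obtain ⟨l, M⟩ := p
    simp only at h1 h2
    subst h2
    rw [if_pos ((chk_iff G l).2 ⟨c, hc, h1⟩), arcKayles_iff]
    exact hW
  · intro h
    split_ifs at h with h1
    · obtain ⟨l, M⟩ := p
      obtain ⟨n, G, h2, hW⟩ := h
      simp only at h2
      subst h2
      obtain ⟨c, hc, h3⟩ := (chk_iff G l).1 h1
      exact ⟨n, G, c, hc, h3, rfl, hW⟩
    · exact absurd h not_arcKayles_one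

theorem poly_fixM : NPC.Poly fixM :=
  NPC.Poly.ite (p := fun p => chk p = true) (NPC.Poly.decide_bool poly_chk)
    (NPC.Poly.snd NPC.Poly.id) (NPC.Poly.const _)

theorem bip_mem : InPSPACE (lang BipArcKayles) := by
  have hdec : NPC.Poly (fun x : List Bool =>
      fixM ((unbits (List Bool × List (List Bool)) x).getD ([], [[true]]))) :=
    poly_fixM.comp (NPC.Poly.optGetD poly_unbits (NPC.Poly.const ([], [[true]])))
  refine inPSPACE_of_mat hdec ?_
  intro x
  rw [mem_lang_iff]
  constructor
  · rintro ⟨p, hp, h⟩
    rw [hp, Option.getD_some]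
    exact (bip_iff p).1 h
  · intro h
    cases hx : unbits (List Bool × List (List Bool)) x with
    | none =>
      rw [hx, Option.getD_none] at h
      have h1 : fixM ([], [[true]]) = [[true]] := by
        unfold fixM
        rw [if_neg (by decide)]
      rw [h1] at h
      exact absurd h not_arcKayles_one
    | some p =>
      rw [hx, Option.getD_some] at h
      exact ⟨p, rfl, (bip_iff p).2 h⟩

theorem bip_reduction {L : Set (List Bool)} (hL : InPSPACE L) :
    ∃ f : List Bool → List Bool × List (List Bool), NPC.Poly f ∧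
      (∀ x, ∃ (n : ℕ) (G : SimpleGraph (Fin n)) (c : Fin n → Bool),
        (∀ i j, G.Adj i j → c i ≠ c j) ∧ List.ofFn c = (f x).1 ∧ adjMatrix G = (f x).2 ∧
          (x ∈ L ↔ FirstWins G Set.univ)) := by
  obtain ⟨f, hf, hwf, hf'⟩ := qbf_hard hL
  refine ⟨fun x => (colQ (f x), matQ (f x)), (poly_colQ.comp hf).pair (poly_matQ.comp hf), ?_⟩
  intro x
  obtain ⟨n, G, c, hc, h1, h2, h3⟩ := graph_of (f x) (hwf x)
  exact ⟨n, G, c, hc, h1.symm, h2.symm, by rw [hf' x, h3]⟩

theorem bip_hard : PSPACEHard (lang BipArcKayles) := by
  intro L hL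
  obtain ⟨f, hf, hf'⟩ := bip_reduction hL
  refine ⟨fun x => bits (f x), polyTime_bits hf, fun x => ?_⟩
  rw [bits_mem_lang]
  obtain ⟨n, G, c, hc, h1, h2, h3⟩ := hf' x
  rw [h3]
  constructor
  · exact fun h => ⟨n, G, c, hc, h1, h2, h⟩
  · rintro ⟨m, H, d, -, -, h5, h6⟩
    rw [← arcKayles_iff, h2, ← h5, arcKayles_iff]
    exact h6

end Pool.Agent.Y386.AK
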