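import Pool.Agent.Y386.AK.Core

/-!
# Hub games: positions with an active hub
-/

namespace Pool.Agent.Y386.AK

set_option linter.unusedSectionVars false

open Finset
open Pool.Agent.H656R2.AK (V4 Net Cmp)

variable {ι : Type} [DecidableEq ι] [Fintype ι]

/-- The critical value of a side. -/
def dl (b : Bool) : V4 := if b then (1, 1) else (1, 0)

theorem three (c : Fin 7) : ∃ j k : Fin 7, j ≠ k ∧ (j ≠ 0 ∧ j ≤ 4) ∧ (k ≠ 0 ∧ k ≤ 4) ∧ j ≠ c ∧
    k ≠ c := by revert c; decide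

/-- Critical positions: the hub `i` is active. -/
structure CL (N : Net ι) (fl : Option Bool) (i : ι) (p : Pos ι) : Prop where
  ok : okp N p
  phi : Phi N p = dl (N.typ i)
  hi : i ∈ p.H
  xi : p.s (.inl (i, 0)) = 29
  sup : ∀ c : Fin 7, c ≠ 0 → p.s (.inl (i, c)) = full (knd N (.inl (i, c)))
  oth : ∀ g ∈ p.H, g ≠ i → ∀ c, p.s (.inl (g, c)) = full (knd N (.inl (g, c)))
  abs : ∀ g ∉ p.H, (p.s (.inl (g, 0))).testBit 1 = true → fl ≠ none ∧
    gr .X (p.s (.inl (g, 0)) ^^^ 2 ^ 1) + gr .X (p.s (.inl (g, 0))) = (0, 1)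
  fs : p.s (.inr (N.typ i)) = full (knd N (.inr (N.typ i)))
  fo : p.s (.inr (!N.typ i)) = fl.elim (full (knd N (.inr (!N.typ i))))
    fun s => full (knd N (.inr (!N.typ i))) ^^^ 2 ^ vv (!N.typ i) s

theorem full_K (N : Net ι) {g : ι} {j : Fin 7} (h : j ≠ 0 ∧ j ≤ 4) :
    full (knd N (.inl (g, j))) = 3 := by rw [kind_K N h]; rfl

theorem full_X (N : Net ι) (g : ι) : full (knd N (.inl (g, 0))) = 31 := by rw [kind_X]; rfl

/-- A reply with the active hub. -/
theorem replyI {N : Net ι} {i : ι} {p : Pos ι} (hok : okp N p) (hi : i ∈ p.H)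
    (hne : Phi N p ≠ dl (N.typ i)) (h0 : Phi N p = 0 → p.s (.inl (i, 0)) = 29)
    (h1 : Phi N p = (0, 1) → ∃ j : Fin 7, (j ≠ 0 ∧ j ≤ 4) ∧ p.s (.inl (i, j)) = 3)
    (h2 : Phi N p = dl (N.typ i) + (0, 1) → ∃ j : Fin 7, (j ≠ 0 ∧ ¬ j ≤ 4) ∧
      p.s (.inl (i, j)) = full (knd N (.inl (i, j))))
    (hg : ∀ g ∈ p.H, g ≠ i → Y386.AK.good (p.s (.inl (g, 0))) = true ∧ Two p g) :
    ∃ p', Mv N p p' ∧ ZP N p' := by
  have key : ∃ j : Fin 7, (p.s (.inl (i, j))).testBit 0 = true ∧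
      gr (knd N (.inl (i, j))) (p.s (.inl (i, j)) ^^^ 2 ^ 0) + gr (knd N (.inl (i, j))) (p.s (.inl (i, j)))
        = Phi N p := by
    have h4 : Phi N p = 0 ∨ Phi N p = (0, 1) ∨ Phi N p = dl (N.typ i) + (0, 1) := by
      revert hne
      generalize Phi N p = a
      generalize N.typ i = b
      revert a b
      decide
    rcases h4 with h4 | h4 | h4
    · refine ⟨0, ?_, ?_⟩
      · rw [h0 h4]; decide
      · rw [h0 h4, h4, kind_X]; decide +kernel
    · obtain ⟨j, hj, hj3⟩ := h1 h4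
      refine ⟨j, ?_, ?_⟩
      · rw [hj3]; decide
      · rw [hj3, h4, kind_K N hj]; decide +kernel
    · obtain ⟨j, hj, hj3⟩ := h2 h4
      refine ⟨j, ?_, ?_⟩
      · rw [hj3]
        simp only [knd, hj.1, hj.2, if_false]
        split_ifs <;> decide +kernel
      · rw [hj3, h4]
        simp only [knd, hj.1, hj.2, if_false]
        cases N.typ i <;> decide +kernel
  obtain ⟨j, hj0, hj⟩ := key
  have hp : prt N i (.inl (i, j)) 0 := Or.inl ⟨rfl, rfl⟩
  refine ⟨_, Mv.hub p i (.inl (i, j)) 0 hi hp hj0, ?_, ?_, ?_, ?_⟩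
  · exact hok.upd (F4 _ _ (ok_lt (hok _)) (hok _) 0 (port_mem hp) hj0).1
  · rw [Phi_upd, hj]
    exact add_self4 _
  · intro g hg'
    have hne := Finset.ne_of_mem_erase hg'
    rw [Pos.upd_ne (by simp [hne])]
    exact (hg g (Finset.mem_of_mem_erase hg') hne).1
  · intro g hg'
    have hne := Finset.ne_of_mem_erase hg'
    refine (hg g (Finset.mem_of_mem_erase hg') hne).2.upd ?_
    intro k hk
    simp [Ne.symm hne]

/-- the other gadgets after a change of one component -/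
theorem CL.others {N : Net ι} {fl : Option Bool} {i : ι} {p : Pos ι} (h : CL N fl i p) {H : Finset ι}
    {c : Cmp ι} {m : ℕ} {g : ι} (hg : g ∈ p.H) (hgi : g ≠ i)
    (hX : c = .inl (g, 0) → Y386.AK.good m = true) :
    Y386.AK.good ((p.upd H c m).s (.inl (g, 0))) = true ∧ Two (p.upd H c m) g := by
  constructor
  · by_cases hc : c = .inl (g, 0)
    · have := hX hc
      subst hc
      rwa [Pos.upd_self]
    · rw [Pos.upd_ne (Ne.symm hc), h.oth g hg hgi, full_X]
      decide +kernel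
  · by_cases hc : ∃ a, c = .inl (g, a)
    · obtain ⟨a, rfl⟩ := hc
      obtain ⟨j, k, hjk, hj, hk, hja, hka⟩ := three a
      refine ⟨j, k, hjk, hj, hk, ?_, ?_⟩
      · rw [Pos.upd_ne (by simp [hja]), h.oth g hg hgi, full_K N hj]
      · rw [Pos.upd_ne (by simp [hka]), h.oth g hg hgi, full_K N hk]
    · push Not at hc
      refine ⟨1, 2, by decide, by decide, by decide, ?_, ?_⟩
      · rw [Pos.upd_ne (Ne.symm (hc 1)), h.oth g hg hgi, full_K N (by decide)]
      · rw [Pos.upd_ne (Ne.symm (hc 2)), h.oth g hg hgi, full_K N (by decide)]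

/-- Deviations not touching the active gadget. -/
theorem CL.devi {N : Net ι} {fl : Option Bool} {i : ι} {p : Pos ι} (h : CL N fl i p) {H : Finset ι}
    (hH : H ⊆ p.H) (hi : i ∈ H) {c : Cmp ι} {m : ℕ} (hc : ∀ a, c ≠ .inl (i, a))
    (hm : Y386.AK.ok (knd N c) m = true) (ht : gr (knd N c) m ≠ gr (knd N c) (p.s c))
    (hX : ∀ g ∈ H, g ≠ i → c = .inl (g, 0) → Y386.AK.good m = true) :
    ∃ p', Mv N (p.upd H c m) p' ∧ ZP N p' := by
  refine replyI (h.ok.upd hm) hi ?_ ?_ ?_ ?_ ?_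
  · rw [Phi_upd, h.phi]
    intro h1
    refine add_ne4 ht ?_
    revert h1
    generalize gr (knd N c) m + gr (knd N c) (p.s c) = a
    generalize dl (N.typ i) = b
    revert a b
    decide
  · intro _
    rw [Pos.upd_ne (Ne.symm (hc 0)), h.xi]
  · intro _
    refine ⟨1, by decide, ?_⟩
    rw [Pos.upd_ne (Ne.symm (hc 1)), h.sup 1 (by decide), full_K N (by decide)]
  · intro _
    refine ⟨5, by decide, ?_⟩
    rw [Pos.upd_ne (Ne.symm (hc 5)), h.sup 5 (by decide)]
  · intro g hg hgi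
    exact h.others (hH hg) hgi (hX g hg hgi)

/-- Deviations with the active hub. -/
theorem CL.gri {N : Net ι} {fl : Option Bool} {i : ι} {p : Pos ι} (h : CL N fl i p) {c : Cmp ι} {m : ℕ}
    (hm : Y386.AK.ok (knd N c) m = true)
    (ht : gr (knd N c) m + gr (knd N c) (p.s c) ≠ dl (N.typ i))
    (hX : ∀ g ∈ p.H, g ≠ i → c = .inl (g, 0) → Y386.AK.good m = true) :
    ∃ p', Mv N (p.upd (p.H.erase i) c m) p' ∧ ZP N p' := by
  refine AZ.reply (AZ.of_good (h.ok.upd hm) ?_ ?_)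
  · rw [Phi_upd, h.phi]
    intro h1
    refine ht ?_
    revert h1
    generalize gr (knd N c) m + gr (knd N c) (p.s c) = a
    generalize dl (N.typ i) = b
    revert a b
    decide
  · intro g hg
    have hne := Finset.ne_of_mem_erase hg
    have hg' := Finset.mem_of_mem_erase hg
    exact h.others hg' hne (hX g hg' hne)

/-- Premature activations are answered by a flag. -/
theorem CL.cheat {N : Net ι} {fl : Option Bool} {i : ι} {p : Pos ι} (h : CL N fl i p) {H : Finset ι}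
    (hH : H ⊆ p.H) (hi : i ∈ H) {J : ι} {m : ℕ} (hJ : J ∈ H) (hJi : J ≠ i)
    (hm : Y386.AK.ok .X m = true) (ht : gr .X m + gr .X (p.s (.inl (J, 0))) = (0, 1))
    (hq : m.testBit 1 = true → gr .X (m ^^^ 2 ^ 1) + gr .X m = (0, 1)) :
    ∃ p' s, Mv N (p.upd H (.inl (J, 0)) m) p' ∧ CL N (some s) i p' := by
  have hJ' := hH hJ
  -- the state after the opponent's move
  set p1 := p.upd H (.inl (J, 0)) m with hp1
  have hok1 : okp N p1 := h.ok.upd (by rw [kind_X]; exact hm)
  have hphi1 : Phi N p1 = dl (N.typ i) + (0, 1) := by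
    rw [hp1, Phi_upd, h.phi, kind_X, ht]
  have hX1 : ∀ g ∉ H.erase J, (p1.s (.inl (g, 0))).testBit 1 = true →
      gr .X (p1.s (.inl (g, 0)) ^^^ 2 ^ 1) + gr .X (p1.s (.inl (g, 0))) = (0, 1) := by
    intro g hg hb
    by_cases hgJ : g = J
    · subst hgJ
      rw [hp1, Pos.upd_self] at hb ⊢
      exact hq hb
    · have hgH : g ∉ H := fun hg' => hg (Finset.mem_erase.2 ⟨hgJ, hg'⟩)
      have hgi : g ≠ i := fun e => hgH (e ▸ hi)
      have e1 : p1.s (.inl (g, 0)) = p.s (.inl (g, 0)) := Pos.upd_ne (by simp [hgJ])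
      rw [e1] at hb ⊢
      by_cases hgp : g ∈ p.H
      · rw [h.oth g hgp hgi, full_X]
        decide +kernel
      · exact (h.abs g hgp hb).2
  cases fl with
  | some s =>
    have e3 : p1.s (.inl (J, 1)) = 3 := by
      rw [hp1, Pos.upd_ne (by simp), h.oth J hJ' hJi, full_K N (by decide)]
    have hk1 : knd N (.inl (J, 1)) = .K := kind_K N (by decide)
    refine ⟨_, s, Mv.hub p1 J (.inl (J, 1)) 0 hJ (Or.inl ⟨rfl, rfl⟩) (by rw [e3]; decide), ?_⟩
    constructor
    · refine hok1.upd ?_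
      rw [hk1, e3]; decide
    · rw [Phi_upd, hphi1, hk1, e3]
      generalize dl (N.typ i) = a
      revert a
      decide +kernel
    · exact Finset.mem_erase.2 ⟨Ne.symm hJi, hi⟩
    · rw [Pos.upd_ne (by simp), hp1, Pos.upd_ne (by simp [Ne.symm hJi]), h.xi]
    · intro c hc
      rw [Pos.upd_ne (by simp [Ne.symm hJi]), hp1, Pos.upd_ne (by simp [Ne.symm hJi]), h.sup c hc]
    · intro g hg hgi c
      have hne := Finset.ne_of_mem_erase hg
      have hg' := Finset.mem_of_mem_erase hg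
      rw [Pos.upd_ne (by simp [hne]), hp1, Pos.upd_ne (by simp [hne]), h.oth g (hH hg') hgi]
    · intro g hg hb
      refine ⟨by simp, ?_⟩
      rw [Pos.upd_ne (by simp)] at hb ⊢
      exact hX1 g hg hb
    · rw [Pos.upd_ne (by simp), hp1, Pos.upd_ne (by simp), h.fs]
    · rw [Pos.upd_ne (by simp), hp1, Pos.upd_ne (by simp), h.fo]
  | none =>
    have e3 : p1.s (.inr (!N.typ i)) = full (knd N (.inr (!N.typ i))) := by
      rw [hp1, Pos.upd_ne (by simp), h.fo]
      simp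
    have hk : (p1.s (.inr (!N.typ i))).testBit (vv (!N.typ i) (N.typ J)) = true := by
      rw [e3]
      simp only [knd]
      cases N.typ i <;> cases N.typ J <;> decide
    have hp : prt N J (.inr (!N.typ i)) (vv (!N.typ i) (N.typ J)) := Or.inl rfl
    refine ⟨_, N.typ J, Mv.hub p1 J (.inr (!N.typ i)) (vv (!N.typ i) (N.typ J)) hJ hp hk, ?_⟩
    constructor
    · exact hok1.upd (F4 _ _ (ok_lt (hok1 _)) (hok1 _) _ (port_mem hp) hk).1
    · rw [Phi_upd, hphi1, e3]
      simp only [knd]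
      cases N.typ i <;> cases N.typ J <;> decide +kernel
    · exact Finset.mem_erase.2 ⟨Ne.symm hJi, hi⟩
    · rw [Pos.upd_ne (by simp), hp1, Pos.upd_ne (by simp [Ne.symm hJi]), h.xi]
    · intro c hc
      rw [Pos.upd_ne (by simp), hp1, Pos.upd_ne (by simp [Ne.symm hJi]), h.sup c hc]
    · intro g hg hgi c
      have hne := Finset.ne_of_mem_erase hg
      have hg' := Finset.mem_of_mem_erase hg
      rw [Pos.upd_ne (by simp), hp1, Pos.upd_ne (by simp [hne]), h.oth g (hH hg') hgi]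
    · intro g hg hb
      refine ⟨by simp, ?_⟩
      rw [Pos.upd_ne (by simp)] at hb ⊢
      exact hX1 g hg hb
    · rw [Pos.upd_ne (by simp), hp1, Pos.upd_ne (by simp), h.fs]
    · rw [Pos.upd_self, e3]
      simp

end Pool.Agent.Y386.AK
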