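import Pool.Agent.Y386.AK.Step
import Pool.Agent.H656R2.AK.Bisim

/-!
# Hub games and generalized geography
-/

namespace Pool.Agent.Y386.AK

set_option linter.unusedSectionVars false

open Finset
open Pool.Agent.H656R2.AK (V4 Net Cmp W W_iff not_W_of_class ggMv ggMv.wf xor_lt)

theorem edges_ne : ∀ k : Kind, ∀ e ∈ edges k, e.1 ≠ e.2 := by decide

theorem moves_lt {k : Kind} {m m' : ℕ} (h : m' ∈ moves k m) : m' < m := by
  unfold moves at h
  rw [List.mem_map] at h
  obtain ⟨e, he, rfl⟩ := h
  rw [List.mem_filter] at he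
  obtain ⟨he, hb⟩ := he
  simp only [Bool.and_eq_true] at hb
  have hne := edges_ne k e he
  refine lt_trans (xor_lt ?_) (xor_lt hb.1)
  rw [Nat.testBit_xor, Nat.testBit_two_pow_of_ne hne]
  simpa using hb.2

variable {ι : Type} [DecidableEq ι] [Fintype ι]

/-- a measure -/
def Pos.size (p : Pos ι) : ℕ := ∑ c, p.s c

theorem size_upd {p : Pos ι} {H : Finset ι} {c : Cmp ι} {m : ℕ} (h : m < p.s c) :
    (p.upd H c m).size < p.size := by
  unfold Pos.size
  refine Finset.sum_lt_sum (fun c' _ => ?_) ⟨c, mem_univ c, by simpa using h⟩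
  by_cases hc : c' = c
  · subst hc
    rw [Pos.upd_self]
    exact h.le
  · rw [Pos.upd_ne hc]

theorem Mv.size_lt {N : Net ι} {p p' : Pos ι} (h : Mv N p p') : p'.size < p.size := by
  cases h with
  | loc c m h => exact size_upd (moves_lt h)
  | hub g c v hg hp hv => exact size_upd (xor_lt hv)

theorem Mv.wf (N : Net ι) : WellFounded fun b a => Mv N a b :=
  Subrelation.wf (r := fun b a : Pos ι => b.size < a.size) (fun h => h.size_lt)
    (measure Pos.size).wf

theorem ZP.not_W {N : Net ι} {p : Pos ι} (h : ZP N p) : ¬ W (Mv N) p :=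
  not_W_of_class (Mv.wf N) (ZP N) (fun _ _ h h' => h.step h') h

theorem CL.not_W {N : Net ι} {s : Bool} {i : ι} {p : Pos ι} (h : CL N (some s) i p) :
    ¬ W (Mv N) p := by
  induction p using (Mv.wf N).transGen.induction generalizing s with
  | _ p ih =>
    rw [W_iff (Mv.wf N)]
    rintro ⟨p', hp', hW⟩
    rcases h.step hp' with ⟨p'', h1, h2⟩ | ⟨p'', s', h1, h2⟩ | ⟨h1, _⟩
    · exact hW ((W_iff (Mv.wf N) _).2 ⟨p'', h1, h2.not_W⟩)
    · exact hW ((W_iff (Mv.wf N) _).2 ⟨p'', h1, ih p'' (.tail (.single h1) hp') h2⟩)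
    · exact absurd h1 (by simp)

theorem CL.iff {N : Net ι} {i : ι} {p : Pos ι} (h : CL N none i p) :
    W (Mv N) p ↔ W (ggMv N) (p.H, i) := by
  induction p using (Mv.wf N).induction generalizing i with
  | _ p ih =>
    rw [W_iff (Mv.wf N), W_iff (ggMv.wf N)]
    constructor
    · rintro ⟨p', hp', hW⟩
      rcases h.step hp' with ⟨p'', h1, h2⟩ | ⟨p'', s', h1, h2⟩ | ⟨_, J, hJ, hJi, hE, hcl, hH⟩
      · exact absurd ((W_iff (Mv.wf N) _).2 ⟨p'', h1, h2.not_W⟩) hW
      · exact absurd ((W_iff (Mv.wf N) _).2 ⟨p'', h1, h2.not_W⟩) hW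
      · refine ⟨(p'.H, J), ⟨h.hi, hH, hcl.hi, hE⟩, ?_⟩
        rw [← ih p' hp' hcl]
        exact hW
    · rintro ⟨⟨H, J⟩, ⟨_, hH, hJ, hE⟩, hW⟩
      simp only at hH hJ hE
      rw [hH] at hJ hW
      have hJi := Finset.ne_of_mem_erase hJ
      have hJ' := Finset.mem_of_mem_erase hJ
      have h31 := h.oth J hJ' hJi 0
      rw [full_X] at h31
      have hmv : Mv N p (p.upd (p.H.erase i) (.inl (J, 0)) (p.s (.inl (J, 0)) ^^^ 2 ^ 1)) :=
        Mv.hub p i (.inl (J, 0)) 1 h.hi (Or.inr ⟨rfl, rfl, hE⟩) (by rw [h31]; decide)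
      refine ⟨_, hmv, ?_⟩
      rw [ih _ hmv (h.next hJ' hJi hE)]
      exact hW

/-- The initial position: everything is intact, except that the token is at `i0`. -/
def start (N : Net ι) (i0 : ι) : Pos ι :=
  ⟨univ, fun c => if c = .inl (i0, 0) then 29 else full (knd N c)⟩

theorem sum_gadget (N : Net ι) (g : ι) :
    ∑ a : Fin 7, gr (knd N (.inl (g, a))) (full (knd N (.inl (g, a)))) = 0 := by
  rw [Fin.sum_univ_seven]
  simp only [knd]
  cases N.typ g <;> decide +kernel

theorem start_CL (N : Net ι) (i0 : ι) (h : N.typ i0 = true) : CL N none i0 (start N i0) := by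
  have hs : start N i0 = (⟨univ, fun c => full (knd N c)⟩ : Pos ι).upd univ (.inl (i0, 0)) 29 := by
    unfold start Pos.upd
    congr 1
    funext c
    by_cases hc : c = .inl (i0, 0)
    · subst hc; simp
    · simp [hc]
  constructor
  · intro c
    simp only [start]
    split_ifs with hc
    · subst hc
      rw [kind_X]; decide +kernel
    · cases knd N c <;> decide +kernel
  · rw [hs, Phi_upd]
    have h1 : Phi N (⟨univ, fun c => full (knd N c)⟩ : Pos ι) = (1, 0) := by
      unfold Phi
      rw [Fintype.sum_sum_type, Fintype.sum_prod_type]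
      rw [Finset.sum_eq_zero (fun g _ => sum_gadget N g)]
      simp only [knd, Fintype.sum_bool]
      decide +kernel
    have h2 : (⟨univ, fun c => full (knd N c)⟩ : Pos ι).s (.inl (i0, 0)) = 31 := full_X N i0
    rw [h1, kind_X, h, h2]
    decide +kernel
  · exact mem_univ _
  · simp [start]
  · intro c hc
    simp [start, hc]
  · intro g _ hg c
    simp [start, hg]
  · intro g hg
    exact absurd (mem_univ g) hg
  · simp [start]
  · simp [start]

/-- The hub game of a bipartite graph is won by the first player if and only if generalized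
geography is. -/
theorem start_iff (N : Net ι) (i0 : ι) (h : N.typ i0 = true) :
    W (Mv N) (start N i0) ↔ W (ggMv N) (univ, i0) := (start_CL N i0 h).iff

end Pool.Agent.Y386.AK
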